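import Pool.Agent.HuaBd45.Crt

/-!
# Characteristic two: balanced biadditive maps

The residue maps of `K ⊗ K`, and the consequence of the Chinese remainder argument for biadditive
maps `L : K → K → A`.
-/

namespace Pool.Agent.HuaBd45

open Finset TensorProduct

set_option linter.unusedSectionVars false

section res

variable {K : Type*} [Field K] [CharP K 2]

/-- `K ⊗ K` -/
abbrev KK (K : Type*) [Field K] := K ⊗[ℤ] K

/-- left embedding -/
noncomputable def lf (K : Type*) [Field K] : K →+* KK K :=
  Algebra.TensorProduct.includeLeftRingHom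

/-- right embedding -/
noncomputable def rt (K : Type*) [Field K] : K →+* KK K :=
  (Algebra.TensorProduct.includeRight (R := ℤ) (A := K) (B := K)).toRingHom

theorem lf_apply (a : K) : lf K a = a ⊗ₜ 1 := rfl
theorem rt_apply (b : K) : rt K b = 1 ⊗ₜ b := rfl

theorem lf_mul_rt (a b : K) : lf K a * rt K b = a ⊗ₜ b := by
  rw [lf_apply, rt_apply, Algebra.TensorProduct.tmul_mul_tmul, mul_one, one_mul]

/-- the ring homomorphism `a ⊗ b ↦ f a * g b` -/
noncomputable def bi (f g : K →+* K) : KK K →+* K :=
  (Algebra.TensorProduct.productMap f.toIntAlgHom g.toIntAlgHom).toRingHom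

theorem bi_tmul (f g : K →+* K) (a b : K) : bi f g (a ⊗ₜ b) = f a * g b :=
  Algebra.TensorProduct.productMap_apply_tmul _ _ _ _

theorem bi_lf (f g : K →+* K) (a : K) : bi f g (lf K a) = f a := by
  rw [lf_apply, bi_tmul, map_one, mul_one]

theorem bi_rt (f g : K →+* K) (b : K) : bi f g (rt K b) = g b := by
  rw [rt_apply, bi_tmul, map_one, one_mul]

/-- The kernel of `a ⊗ b ↦ f a * b`. -/
theorem bi_ker_left {s : K} (hgen : ∀ L : Subfield K, s ∈ L → L = ⊤) (f : K →+* K) (r : KK K)
    (hr : bi f (RingHom.id K) r = 0) : ∃ w, r = (lf K s - rt K (f s)) * w := by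
  set I : Ideal (KK K) := Ideal.span {lf K s - rt K (f s)} with hI
  have h1 : ∀ a : K, lf K a - rt K (f a) ∈ I := by
    let L : Subfield K :=
      { carrier := {a | lf K a - rt K (f a) ∈ I}
        mul_mem' := by
          intro a b ha hb
          have : lf K (a * b) - rt K (f (a * b)) =
              lf K b * (lf K a - rt K (f a)) + rt K (f a) * (lf K b - rt K (f b)) := by
            rw [map_mul, map_mul, map_mul]; ring
          change _ ∈ I
          rw [this]
          exact I.add_mem (I.mul_mem_left _ ha) (I.mul_mem_left _ hb)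
        one_mem' := by
          change lf K 1 - rt K (f 1) ∈ I
          rw [map_one, map_one, map_one, sub_self]; exact I.zero_mem
        add_mem' := by
          intro a b ha hb
          have : lf K (a + b) - rt K (f (a + b)) =
              (lf K a - rt K (f a)) + (lf K b - rt K (f b)) := by
            rw [map_add, map_add, map_add]; ring
          change _ ∈ I
          rw [this]
          exact I.add_mem ha hb
        zero_mem' := by
          change lf K 0 - rt K (f 0) ∈ I
          rw [map_zero, map_zero, map_zero, sub_self]; exact I.zero_mem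
        neg_mem' := by
          intro a ha
          have : lf K (-a) - rt K (f (-a)) = -(lf K a - rt K (f a)) := by
            rw [map_neg, map_neg, map_neg]; ring
          change _ ∈ I
          rw [this]
          exact I.neg_mem ha
        inv_mem' := by
          intro a ha
          change lf K a⁻¹ - rt K (f a⁻¹) ∈ I
          by_cases h0 : a = 0
          · rw [h0, inv_zero, map_zero, map_zero, map_zero, sub_self]; exact I.zero_mem
          · have e1 : lf K a⁻¹ * lf K a = 1 := by rw [← map_mul, inv_mul_cancel₀ h0, map_one]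
            have e2 : rt K (f a⁻¹) * rt K (f a) = 1 := by
              rw [← map_mul, ← map_mul, inv_mul_cancel₀ h0, map_one, map_one]
            have : lf K a⁻¹ - rt K (f a⁻¹) =
                (-(lf K a⁻¹ * rt K (f a⁻¹))) * (lf K a - rt K (f a)) := by
              linear_combination (rt K (f a⁻¹)) * e1 - lf K a⁻¹ * e2
            rw [this]
            exact I.mul_mem_left _ ha }
    have hL := hgen L (Ideal.subset_span rfl)
    intro a
    have : a ∈ L := by rw [hL]; trivial
    exact this
  have h2 : ∀ x : KK K, x - rt K (bi f (RingHom.id K) x) ∈ I := by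
    intro x
    induction x using TensorProduct.induction_on with
    | zero => rw [map_zero, map_zero, sub_self]; exact I.zero_mem
    | tmul a b =>
      rw [← lf_mul_rt, map_mul, bi_lf, bi_rt, map_mul]
      have : lf K a * rt K b - rt K (f a) * rt K (RingHom.id K b) =
          rt K b * (lf K a - rt K (f a)) := by
        rw [RingHom.id_apply]; ring
      rw [this]
      exact I.mul_mem_left _ (h1 a)
    | add x y hx hy =>
      have : x + y - rt K (bi f (RingHom.id K) (x + y)) =
          (x - rt K (bi f (RingHom.id K) x)) + (y - rt K (bi f (RingHom.id K) y)) := by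
        rw [map_add, map_add]; ring
      rw [this]
      exact I.add_mem hx hy
  have h3 := h2 r
  rw [hr, map_zero, sub_zero, hI, Ideal.mem_span_singleton'] at h3
  obtain ⟨w, hw⟩ := h3
  exact ⟨w, by rw [← hw, mul_comm]⟩

/-- The kernel of `a ⊗ b ↦ a * g b`. -/
theorem bi_ker_right {s : K} (hgen : ∀ L : Subfield K, s ∈ L → L = ⊤) (g : K →+* K) (r : KK K)
    (hr : bi (RingHom.id K) g r = 0) : ∃ w, r = (lf K (g s) - rt K s) * w := by
  set I : Ideal (KK K) := Ideal.span {lf K (g s) - rt K s} with hI
  have h1 : ∀ a : K, lf K (g a) - rt K a ∈ I := by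
    let L : Subfield K :=
      { carrier := {a | lf K (g a) - rt K a ∈ I}
        mul_mem' := by
          intro a b ha hb
          have : lf K (g (a * b)) - rt K (a * b) =
              lf K (g b) * (lf K (g a) - rt K a) + rt K a * (lf K (g b) - rt K b) := by
            rw [map_mul, map_mul, map_mul]; ring
          change _ ∈ I
          rw [this]
          exact I.add_mem (I.mul_mem_left _ ha) (I.mul_mem_left _ hb)
        one_mem' := by
          change lf K (g 1) - rt K 1 ∈ I
          rw [map_one, map_one, map_one, sub_self]; exact I.zero_mem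
        add_mem' := by
          intro a b ha hb
          have : lf K (g (a + b)) - rt K (a + b) =
              (lf K (g a) - rt K a) + (lf K (g b) - rt K b) := by
            rw [map_add, map_add, map_add]; ring
          change _ ∈ I
          rw [this]
          exact I.add_mem ha hb
        zero_mem' := by
          change lf K (g 0) - rt K 0 ∈ I
          rw [map_zero, map_zero, map_zero, sub_self]; exact I.zero_mem
        neg_mem' := by
          intro a ha
          have : lf K (g (-a)) - rt K (-a) = -(lf K (g a) - rt K a) := by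
            rw [map_neg, map_neg, map_neg]; ring
          change _ ∈ I
          rw [this]
          exact I.neg_mem ha
        inv_mem' := by
          intro a ha
          change lf K (g a⁻¹) - rt K a⁻¹ ∈ I
          by_cases h0 : a = 0
          · rw [h0, inv_zero, map_zero, map_zero, map_zero, sub_self]; exact I.zero_mem
          · have e1 : lf K (g a⁻¹) * lf K (g a) = 1 := by
              rw [← map_mul, ← map_mul, inv_mul_cancel₀ h0, map_one, map_one]
            have e2 : rt K a⁻¹ * rt K a = 1 := by
              rw [← map_mul, inv_mul_cancel₀ h0, map_one]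
            have : lf K (g a⁻¹) - rt K a⁻¹ =
                (-(lf K (g a⁻¹) * rt K a⁻¹)) * (lf K (g a) - rt K a) := by
              linear_combination (rt K a⁻¹) * e1 - lf K (g a⁻¹) * e2
            rw [this]
            exact I.mul_mem_left _ ha }
    have hL := hgen L (Ideal.subset_span rfl)
    intro a
    have : a ∈ L := by rw [hL]; trivial
    exact this
  have h2 : ∀ x : KK K, x - lf K (bi (RingHom.id K) g x) ∈ I := by
    intro x
    induction x using TensorProduct.induction_on with
    | zero => rw [map_zero, map_zero, sub_self]; exact I.zero_mem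
    | tmul a b =>
      rw [← lf_mul_rt, map_mul, bi_lf, bi_rt, map_mul]
      have : lf K a * rt K b - lf K (RingHom.id K a) * lf K (g b) =
          (-lf K a) * (lf K (g b) - rt K b) := by
        rw [RingHom.id_apply]; ring
      rw [this]
      exact I.mul_mem_left _ (h1 b)
    | add x y hx hy =>
      have : x + y - lf K (bi (RingHom.id K) g (x + y)) =
          (x - lf K (bi (RingHom.id K) g x)) + (y - lf K (bi (RingHom.id K) g y)) := by
        rw [map_add, map_add]; ring
      rw [this]
      exact I.add_mem hx hy
  have h3 := h2 r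
  rw [hr, map_zero, sub_zero, hI, Ideal.mem_span_singleton'] at h3
  obtain ⟨w, hw⟩ := h3
  exact ⟨w, by rw [← hw, mul_comm]⟩

/-- the residue maps of `K ⊗ K` -/
noncomputable def resKK {s : K} (hgen : ∀ L : Subfield K, s ∈ L → L = ⊤) : Res (lf K) (rt K) s where
  ρ j := bi (iterateFrobenius K 2 j) (RingHom.id K)
  hα j a := by rw [bi_lf, iterateFrobenius_def]
  hβ j b := by rw [bi_rt, RingHom.id_apply]
  ker j r hr := by
    obtain ⟨w, hw⟩ := bi_ker_left hgen _ r hr
    exact ⟨w, by rw [hw, iterateFrobenius_def, map_pow]⟩
  σ := bi (RingHom.id K) (frobenius K 2)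
  σα a := by rw [bi_lf, RingHom.id_apply]
  σβ b := by rw [bi_rt, frobenius_def]
  σker r hr := by
    obtain ⟨w, hw⟩ := bi_ker_right hgen _ r hr
    exact ⟨w, by rw [hw, frobenius_def, map_pow]⟩

end res

section bal

variable {K : Type*} [Field K] [CharP K 2] {A : Type*} [AddCommGroup A] (L : K →+ K →+ A)

/-- the contraction `a ⊗ b ↦ L a b` -/
noncomputable def ell : KK K →+ A :=
  TensorProduct.liftAddHom L fun n a b => by
    rw [map_zsmul, map_zsmul, AddMonoidHom.coe_smul, Pi.smul_apply]

theorem ell_tmul (a b : K) : ell L (a ⊗ₜ b) = L a b := rfl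

/-- a biadditive map which kills the product of the `dl i`, `i < n`, and all `v⁻¹ ⊗ v` is balanced
over the squares -/
theorem bal {s : K} (hs : Gen s) (n : ℕ)
    (hT : ∀ r, ell L ((∏ i ∈ range n, dl (lf K) (rt K) s i) * r) = 0)
    (hE : ∀ v : K, v ≠ 0 → L v⁻¹ v = 0) (k a b : K) : L (k ^ 2 * a) b = L a (k ^ 2 * b) := by
  have h1 : ∀ a b, L (s ^ 2 * a) b = L a (s ^ 2 * b) := by
    intro a b
    have h := crt (resKK hs.gen) hs (N := (ell L).ker) (fun v hv => by
      rw [AddMonoidHom.mem_ker, th, lf_mul_rt, ell_tmul, hE v hv]) n (fun r => hT r) (a ⊗ₜ b)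
    rw [AddMonoidHom.mem_ker, dl, sub_mul, map_sub, sub_eq_zero, ← lf_mul_rt, pow_one] at h
    have e1 : lf K s ^ 2 * (lf K a * rt K b) = (s ^ 2 * a) ⊗ₜ b := by
      rw [← lf_mul_rt, map_mul, map_pow, mul_assoc]
    have e2 : rt K s ^ 2 * (lf K a * rt K b) = a ⊗ₜ (s ^ 2 * b) := by
      rw [← lf_mul_rt, map_mul, map_pow]; ring
    rw [e1, e2, ell_tmul, ell_tmul] at h
    exact h
  let M : Subfield K :=
    { carrier := {k | ∀ a b, L (k ^ 2 * a) b = L a (k ^ 2 * b)}
      mul_mem' := by
        intro k l hk hl a b
        rw [mul_pow, mul_assoc, hk, hl, mul_assoc, mul_left_comm]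
      one_mem' := by intro a b; rw [one_pow, one_mul, one_mul]
      add_mem' := by
        intro k l hk hl a b
        have : (k + l) ^ 2 = k ^ 2 + l ^ 2 := by
          linear_combination (k * l) * two_eq (K := K)
        rw [this, add_mul, add_mul, map_add, map_add, AddMonoidHom.add_apply, hk, hl]
      zero_mem' := by
        intro a b
        rw [zero_pow two_ne_zero, zero_mul, zero_mul, map_zero, map_zero]
        rfl
      neg_mem' := by intro k hk a b; rw [neg_sq]; exact hk a b
      inv_mem' := by
        intro k hk a b
        by_cases h0 : k = 0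
        · rw [h0, inv_zero, zero_pow two_ne_zero, zero_mul, zero_mul, map_zero, map_zero]
          rfl
        · have h2 : k ^ 2 ≠ 0 := pow_ne_zero _ h0
          have h3 := hk (k⁻¹ ^ 2 * a) (k⁻¹ ^ 2 * b)
          rw [inv_pow, mul_inv_cancel_left₀ h2, mul_inv_cancel_left₀ h2] at h3
          rw [inv_pow]
          exact h3.symm }
  have hM := hs.gen M h1
  have : k ∈ M := by rw [hM]; trivial
  exact this a b

/-- the normal form of a balanced biadditive map -/
theorem bal_form {s : K} (D : K → K) (hDs : ∀ z, ∃ a b, z = a ^ 2 + b ^ 2 * s ∧ D z = b ^ 2)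
    (hb : ∀ k a b, L (k ^ 2 * a) b = L a (k ^ 2 * b)) (c x : K) :
    L c x = L 1 (c * x) + (L s (D c * x) - L 1 (s * (D c * x))) := by
  obtain ⟨a, b, h1, h2⟩ := hDs c
  have e1 : L c x = L 1 (a ^ 2 * x) + L s (b ^ 2 * x) := by
    rw [← hb a 1 x, ← hb b s x, mul_one, ← AddMonoidHom.add_apply, ← map_add, ← h1]
  have e2 : c * x = a ^ 2 * x + s * (D c * x) := by rw [h2, h1]; ring
  rw [e1, e2, map_add, h2]
  abel

end bal

end Pool.Agent.HuaBd45
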