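import Pool.Agent.HuaBd45.Theta

/-!
# Characteristic two: the Chinese remainder argument

`α, β` are the two embeddings of the field `K` in `R` (think of `R = K ⊗ K`). A subgroup `N` of `R`
which contains all `α v⁻¹ * β v` and the ideal generated by the product of the elements
`α s ^ 2 - β s ^ (2 ^ i)`, `i < n`, contains the ideal generated by `α s ^ 2 - β s ^ 2`.
-/

namespace Pool.Agent.HuaBd45

open Finset

set_option linter.unusedSectionVars false

/-- The residue maps of `R`. -/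
structure Res {K R : Type*} [Field K] [CommRing R] (α β : K →+* R) (s : K) where
  /-- the map `α a * β b ↦ a ^ (2 ^ j) * b` -/
  ρ : ℕ → R →+* K
  hα : ∀ j a, ρ j (α a) = a ^ 2 ^ j
  hβ : ∀ j b, ρ j (β b) = b
  ker : ∀ j r, ρ j r = 0 → ∃ w, r = (α s - β s ^ 2 ^ j) * w
  /-- the map `α a * β b ↦ a * b ^ 2` -/
  σ : R →+* K
  σα : ∀ a, σ (α a) = a
  σβ : ∀ b, σ (β b) = b ^ 2
  σker : ∀ r, σ r = 0 → ∃ w, r = (α s ^ 2 - β s) * w

section abs

variable {K R : Type*} [Field K] [CharP K 2] [CommRing R] {α β : K →+* R} {s : K}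

omit [CharP K 2] in
theorem two_R [CharP K 2] (α : K →+* R) : (2 : R) = 0 := by
  have := congrArg α (two_eq (K := K))
  rwa [map_ofNat, map_zero] at this

theorem add_self_K (x : K) : x + x = 0 := by
  rw [← two_mul, two_eq, zero_mul]

theorem eq_of_add_K {x y : K} (h : x + y = 0) : x = y := by
  have h1 := add_self_K y
  calc x = x + (y + y) := by rw [h1, add_zero]
    _ = (x + y) + y := by ring
    _ = y := by rw [h, zero_add]

/-- the elements `α v⁻¹ * β v` -/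
def th (α β : K →+* R) (v : K) : R := α v⁻¹ * β v

/-- the subring generated by the elements `th v` -/
def SS (α β : K →+* R) : Subring R := Subring.closure {x | ∃ v : K, v ≠ 0 ∧ x = th α β v}

omit [CharP K 2] in
theorem th_mem {v : K} (hv : v ≠ 0) : th α β v ∈ SS α β :=
  Subring.subset_closure ⟨v, hv, rfl⟩

omit [CharP K 2] in
theorem th_mul (v w : K) : th α β v * th α β w = th α β (v * w) := by
  rw [th, th, th, mul_inv, map_mul, map_mul]
  ring

omit [CharP K 2] in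
theorem SS_le {N : AddSubgroup R} (hN : ∀ v : K, v ≠ 0 → th α β v ∈ N) {x : R}
    (hx : x ∈ SS α β) : x ∈ N := by
  have h1 : Submonoid.closure {x | ∃ v : K, v ≠ 0 ∧ x = th α β v} ≤
      (⟨⟨{x | ∃ v : K, v ≠ 0 ∧ x = th α β v}, by
        rintro a b ⟨v, hv, rfl⟩ ⟨w, hw, rfl⟩
        exact ⟨v * w, mul_ne_zero hv hw, th_mul v w⟩⟩, ⟨1, one_ne_zero, by
          rw [th, inv_one, map_one, map_one, mul_one]⟩⟩ : Submonoid R) :=
    Submonoid.closure_le.2 fun x hx => hx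
  rw [SS, Subring.mem_closure_iff] at hx
  refine (AddSubgroup.closure_le _).2 ?_ hx
  intro y hy
  obtain ⟨v, hv, rfl⟩ := h1 hy
  exact hN v hv

/-- the element `α s ^ 2 - β s ^ (2 ^ i)` -/
def dl (α β : K →+* R) (s : K) (i : ℕ) : R := α s ^ 2 - β s ^ 2 ^ i

/-- the residue map belonging to `dl i` -/
def tau (H : Res α β s) : ℕ → R →+* K
  | 0 => H.σ
  | j + 1 => H.ρ j

variable (H : Res α β s)

theorem tau_ker (i : ℕ) {r r' : R} (h : tau H i r = 0) (h' : tau H i r' = 0) :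
    ∃ w, r * r' = dl α β s i * w := by
  rcases i with _ | j
  · obtain ⟨w, hw⟩ := H.σker r h
    exact ⟨w * r', by rw [hw, dl, pow_zero, pow_one]; ring⟩
  · obtain ⟨w, hw⟩ := H.ker j r h
    obtain ⟨w', hw'⟩ := H.ker j r' h'
    refine ⟨w * w', ?_⟩
    have h2 := two_R α
    rw [hw, hw', dl, pow_succ 2 j, pow_mul]
    linear_combination (-(α s * β s ^ 2 ^ j) + β s ^ 2 ^ j * β s ^ 2 ^ j) * w * w' * h2

/-- hypotheses on `s` -/
structure Gen (s : K) : Prop where
  tr : ∀ (m : ℕ) (S : Finset ℕ), S ⊆ range m → s ^ m + ∑ i ∈ S, s ^ i ≠ 0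
  gen : ∀ L : Subfield K, s ∈ L → L = ⊤

variable (hs : Gen s)
include hs

theorem Gen.ne_zero : s ≠ 0 := by
  have h := hs.tr 1 ∅ (empty_subset _)
  simpa using h

theorem Gen.pow_ne {a b : ℕ} (h : a < b) : s ^ a ≠ s ^ b := by
  intro h1
  have h2 := hs.tr b {a} (by rw [singleton_subset_iff, mem_range]; exact h)
  rw [sum_singleton, h1] at h2
  exact h2 (add_self_K _)

theorem Gen.pow_ne_one {a : ℕ} (h : 0 < a) : s ^ a ≠ 1 := by
  intro h1
  exact hs.pow_ne h (by rw [h1, pow_zero])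

theorem Gen.add_one_ne : s + 1 ≠ 0 := by
  intro h1
  have := eq_of_add_K h1
  exact hs.pow_ne_one one_pos (by rw [pow_one, this])

omit hs in
theorem add_one_pow (x : K) (j : ℕ) : (x + 1) ^ 2 ^ j = x ^ 2 ^ j + 1 := by
  rw [← iterateFrobenius_def, map_add, map_one, iterateFrobenius_def]

/-- `s ^ (q - 1) ≠ (s + 1) ^ (q - 1)` -/
theorem Gen.key {j : ℕ} (hj : 1 ≤ j) : s ^ (2 ^ j - 1) ≠ (s + 1) ^ (2 ^ j - 1) := by
  intro h
  have hq : 2 ^ j = (2 ^ j - 1) + 1 := by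
    have : 0 < 2 ^ j := by positivity
    omega
  have e1 : s ^ 2 ^ j = s ^ (2 ^ j - 1) * s := by
    nth_rewrite 1 [hq]; rw [pow_succ]
  have e2 : (s + 1) ^ 2 ^ j = (s + 1) ^ (2 ^ j - 1) * (s + 1) := by
    nth_rewrite 1 [hq]; rw [pow_succ]
  rw [add_one_pow] at e2
  have h1 : s ^ 2 ^ j * (s + 1) = (s ^ 2 ^ j + 1) * s := by
    rw [e2, ← h, e1]; ring
  have h2 : s ^ 2 ^ j = s := by linear_combination h1
  have h3 : (1 : ℕ) < 2 ^ j := Nat.one_lt_two_pow (by omega)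
  exact hs.pow_ne h3 (by rw [pow_one, h2])

omit hs in
theorem rho_th (j : ℕ) (v : K) (hv : v ≠ 0) : H.ρ j (th α β v) = (v ^ (2 ^ j - 1))⁻¹ := by
  rw [th, map_mul, H.hα, H.hβ]
  have hq : 2 ^ j = (2 ^ j - 1) + 1 := by
    have : 0 < 2 ^ j := by positivity
    omega
  nth_rewrite 1 [hq]
  rw [pow_succ, mul_assoc, inv_mul_cancel₀ hv, mul_one, inv_pow]

omit hs in
theorem sigma_th (v : K) (hv : v ≠ 0) : H.σ (th α β v) = v := by
  rw [th, map_mul, H.σα, H.σβ, sq, ← mul_assoc, inv_mul_cancel₀ hv, one_mul]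

/-- The residue fields of `SS` are everything. -/
theorem surj {i : ℕ} (hi : i ≠ 1) (x : K) : ∃ y ∈ SS α β, tau H i y = x := by
  rcases i with _ | j
  · by_cases hx : x = 0
    · exact ⟨0, zero_mem _, by rw [map_zero, hx]⟩
    · exact ⟨th α β x, th_mem hx, sigma_th H x hx⟩
  · have hj : 1 ≤ j := by omega
    have hq : 2 ≤ 2 ^ j := by
      calc 2 = 2 ^ 1 := rfl
        _ ≤ 2 ^ j := Nat.pow_le_pow_right (by norm_num) hj
    set T : Subring K := (SS α β).map (H.ρ j) with hT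
    have hTv : ∀ v : K, v ≠ 0 → (v ^ (2 ^ j - 1))⁻¹ ∈ T := fun v hv =>
      ⟨_, th_mem hv, rho_th H j v hv⟩
    have hTv' : ∀ v : K, v ≠ 0 → v ^ (2 ^ j - 1) ∈ T := fun v hv => by
      have h := hTv v⁻¹ (inv_ne_zero hv)
      rwa [inv_pow, inv_inv] at h
    have hinv : ∀ y ∈ T, y⁻¹ ∈ T := by
      intro y hy
      by_cases hy0 : y = 0
      · rw [hy0, inv_zero]; exact zero_mem _
      · have h1 : y⁻¹ = y ^ (2 ^ j - 2) * (y ^ (2 ^ j - 1))⁻¹ := by
          have h2 : 2 ^ j - 1 = (2 ^ j - 2) + 1 := by omega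
          rw [h2, pow_succ, mul_inv, ← mul_assoc, mul_inv_cancel₀ (pow_ne_zero _ hy0), one_mul]
        rw [h1]
        exact mul_mem (pow_mem hy _) (hTv y hy0)
    let L : Subfield K := { T with inv_mem' := hinv }
    have hsL : s ∈ L := by
      change s ∈ T
      have hb0 := hTv' s hs.ne_zero
      have hb := hTv' (s + 1) hs.add_one_ne
      set b0 := s ^ (2 ^ j - 1) with hb0d
      set b := (s + 1) ^ (2 ^ j - 1) with hbd
      have hne : b + b0 ≠ 0 := fun h => hs.key hj (eq_of_add_K h).symm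
      have e1 : s ^ 2 ^ j = b0 * s := by
        have hq' : 2 ^ j = (2 ^ j - 1) + 1 := by omega
        nth_rewrite 1 [hq']; rw [pow_succ]
      have e2 : s ^ 2 ^ j + 1 = b * (s + 1) := by
        rw [← add_one_pow]
        have hq' : 2 ^ j = (2 ^ j - 1) + 1 := by omega
        nth_rewrite 1 [hq']; rw [pow_succ]
      have e3 : s = (1 + b) * (b + b0)⁻¹ := by
        rw [eq_mul_inv_iff_mul_eq₀ hne]
        have h2 := two_eq (K := K)
        rw [e1] at e2
        linear_combination (-1 : K) * e2 + (b0 * s - b) * h2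
      rw [e3]
      exact mul_mem (add_mem (one_mem _) hb) (hinv _ (add_mem hb hb0))
    have htop := hs.gen L hsL
    have hx : x ∈ L := by rw [htop]; trivial
    obtain ⟨y, hy, hyx⟩ := (show x ∈ T from hx)
    exact ⟨y, hy, hyx⟩

omit hs in
theorem pow_q (x : K) (j : ℕ) : x ^ 2 ^ j = x ^ (2 ^ j - 1) * x := by
  have hq : 2 ^ j = (2 ^ j - 1) + 1 := by
    have : 0 < 2 ^ j := by positivity
    omega
  nth_rewrite 1 [hq]
  rw [pow_succ]

omit hs in
theorem rho_pi (j : ℕ) : H.ρ j (α s - β s ^ 2 ^ j) = 0 := by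
  rw [map_sub, map_pow, H.hα, H.hβ, sub_self]

omit hs in
/-- an element of `SS` in the kernel of the residue map -/
theorem nil_aux {j : ℕ} (hj : 1 ≤ j) {x : K} (hx : x ≠ 0)
    (hπ : α x = (α s - β s ^ 2 ^ j) + β (x ^ 2 ^ j)) {w : R} :
    ∃ u, (β x + (α s - β s ^ 2 ^ j) * w) ^ (2 ^ j - 1) * th α β x - 1 =
      (α s - β s ^ 2 ^ j) * u ∧ H.ρ j u = (x ^ 2 ^ j)⁻¹ + H.ρ j w / x := by
  set π := α s - β s ^ 2 ^ j with hπd
  have hρπ : H.ρ j π = 0 := rho_pi H j
  obtain ⟨z, hz⟩ := Polynomial.powAddExpansion (β x) (π * w) (2 ^ j - 1)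
  have h1 : α x⁻¹ * α x = 1 := by rw [← map_mul, inv_mul_cancel₀ hx, map_one]
  have h2 : β x ^ (2 ^ j - 1) * th α β x = 1 - α x⁻¹ * π := by
    have h3 : β x ^ (2 ^ j - 1) * β x = β (x ^ 2 ^ j) := by
      rw [← map_pow, ← map_mul, ← pow_q]
    rw [th]
    linear_combination (α x⁻¹) * h3 - (α x⁻¹) * hπ + h1
  have hodd : ((2 ^ j - 1 : ℕ) : K) = 1 := by
    have h3 : ((2 ^ j - 1 : ℕ) : K) + 1 = ((2 ^ j : ℕ) : K) := by
      have : 0 < 2 ^ j := by positivity
      rw [← Nat.cast_succ]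
      congr 1
      omega
    have h4 : ((2 ^ j : ℕ) : K) = 0 := by
      rw [Nat.cast_pow]
      have : ((2 : ℕ) : K) = 0 := by exact_mod_cast two_eq (K := K)
      rw [this, zero_pow (by omega)]
    rw [h4] at h3
    exact eq_of_add_K h3
  refine ⟨-α x⁻¹ + ((2 ^ j - 1 : ℕ) : R) * β x ^ (2 ^ j - 1 - 1) * w * th α β x +
    z * π * w ^ 2 * th α β x, ?_, ?_⟩
  · rw [hz]
    linear_combination h2
  · rw [map_add, map_add, map_neg, map_mul, map_mul, map_mul, map_mul, map_mul, map_mul, hρπ,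
      map_natCast, hodd, H.hα, map_pow, H.hβ, rho_th H j x hx]
    have h5 : x ^ (2 ^ j - 1 - 1) * (x ^ (2 ^ j - 1))⁻¹ = x⁻¹ := by
      have h6 : 2 ^ j - 1 = (2 ^ j - 1 - 1) + 1 := by
        have : 2 ≤ 2 ^ j := by
          calc 2 = 2 ^ 1 := rfl
            _ ≤ 2 ^ j := Nat.pow_le_pow_right (by norm_num) hj
        omega
      nth_rewrite 2 [h6]
      rw [pow_succ, mul_inv, ← mul_assoc, mul_inv_cancel₀ (pow_ne_zero _ hx), one_mul]
    have h7 : -(x⁻¹ ^ 2 ^ j) = (x ^ 2 ^ j)⁻¹ := by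
      rw [inv_pow]
      have := add_self_K ((x ^ 2 ^ j)⁻¹)
      linear_combination -this
    rw [h7]
    linear_combination (H.ρ j w) * h5

theorem nil {j : ℕ} (hj : 1 ≤ j) : ∃ ν ∈ SS α β, ∃ u, ν = (α s - β s ^ 2 ^ j) * u ∧
    H.ρ j u ≠ 0 := by
  obtain ⟨y, hy, hyx⟩ := surj H hs (i := j + 1) (by omega) s
  have hyx' : H.ρ j y = s := hyx
  obtain ⟨w, hw⟩ := H.ker j (y - β s) (by rw [map_sub, hyx', H.hβ, sub_self])
  have hy1 : y = β s + (α s - β s ^ 2 ^ j) * w := by rw [← hw]; ring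
  have hy2 : y + 1 = β (s + 1) + (α s - β s ^ 2 ^ j) * w := by
    rw [map_add, map_one, ← hw]; ring
  obtain ⟨u1, h1, h1'⟩ := nil_aux H hj hs.ne_zero (w := w) (by rw [map_pow]; ring)
  obtain ⟨u2, h2, h2'⟩ := nil_aux H hj hs.add_one_ne (w := w) (by
    rw [add_one_pow, map_add, map_add, map_one, map_one, map_pow]; ring)
  rw [← hy1] at h1
  rw [← hy2] at h2
  by_cases hu1 : H.ρ j u1 = 0
  · by_cases hu2 : H.ρ j u2 = 0
    · exfalso
      rw [hu1] at h1'
      rw [hu2] at h2'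
      have aux : ∀ x : K, x ≠ 0 → 0 = (x ^ 2 ^ j)⁻¹ + H.ρ j w / x →
          H.ρ j w = (x ^ (2 ^ j - 1))⁻¹ := by
        intro x hx h
        have h3 := eq_of_add_K h.symm
        rw [eq_div_iff hx, pow_q, mul_inv, mul_assoc, inv_mul_cancel₀ hx, mul_one] at h3
        exact h3.symm
      have e1 := aux s hs.ne_zero h1'
      have e2 := aux (s + 1) hs.add_one_ne h2'
      rw [e1] at e2
      exact hs.key hj (inv_injective e2)
    · exact ⟨_, sub_mem (mul_mem (pow_mem (add_mem hy (one_mem _)) _) (th_mem hs.add_one_ne))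
        (one_mem _), u2, h2, hu2⟩
  · exact ⟨_, sub_mem (mul_mem (pow_mem hy _) (th_mem hs.ne_zero)) (one_mem _), u1, h1, hu1⟩

include H

/-- `SS` is everything modulo `dl i`, `i ≠ 1` -/
theorem surj_dl {i : ℕ} (hi : i ≠ 1) (r : R) : ∃ y ∈ SS α β, ∃ w, r - y = dl α β s i * w := by
  rcases i with _ | j
  · obtain ⟨y, hy, hyx⟩ := surj H hs hi (H.σ r)
    obtain ⟨w, hw⟩ := H.σker (r - y) (by
      have : H.σ y = H.σ r := hyx
      rw [map_sub, this, sub_self])
    exact ⟨y, hy, w, by rw [hw, dl, pow_zero, pow_one]⟩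
  · have hj : 1 ≤ j := by omega
    obtain ⟨y, hy, hyx⟩ := surj H hs (i := j + 1) hi (H.ρ j r)
    obtain ⟨w, hw⟩ := H.ker j (r - y) (by
      have : H.ρ j y = H.ρ j r := hyx
      rw [map_sub, this, sub_self])
    obtain ⟨ν, hν, u, hνu, hu⟩ := nil H hs hj
    obtain ⟨z, hz, hzx⟩ := surj H hs (i := j + 1) hi (H.ρ j w / H.ρ j u)
    obtain ⟨w', hw'⟩ := H.ker j (w - u * z) (by
      have : H.ρ j z = H.ρ j w / H.ρ j u := hzx
      rw [map_sub, map_mul, this, mul_div_cancel₀ _ hu, sub_self])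
    obtain ⟨w2, hw2⟩ := tau_ker H (j + 1) (r := α s - β s ^ 2 ^ j) (r' := α s - β s ^ 2 ^ j)
      (rho_pi H j) (rho_pi H j)
    refine ⟨y + ν * z, add_mem hy (mul_mem hν hz), w2 * w', ?_⟩
    have e1 : r - (y + ν * z) = (α s - β s ^ 2 ^ j) * (w - u * z) := by
      rw [← sub_sub, hw, hνu]; ring
    rw [e1, hw', ← mul_assoc, ← mul_assoc, hw2]

/-- separation of the residue maps -/
theorem sep_one {i : ℕ} (hi : i ≠ 1) : ∃ m ∈ SS α β, H.ρ 0 m = 0 ∧ tau H i m ≠ 0 := by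
  refine ⟨th α β s - 1, sub_mem (th_mem hs.ne_zero) (one_mem _), ?_, ?_⟩
  · rw [map_sub, rho_th H 0 s hs.ne_zero, map_one]
    simp
  · rcases i with _ | j
    · change H.σ (th α β s - 1) ≠ 0
      rw [map_sub, map_one, sigma_th H s hs.ne_zero, sub_ne_zero]
      intro h
      exact hs.pow_ne_one one_pos (by rw [pow_one, h])
    · change H.ρ j (th α β s - 1) ≠ 0
      rw [map_sub, map_one, rho_th H j s hs.ne_zero, sub_ne_zero]
      intro h
      have h3 : (1 : ℕ) < 2 ^ j := Nat.one_lt_two_pow (by omega)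
      exact hs.pow_ne_one (a := 2 ^ j - 1) (by omega) (inv_eq_one.1 h)

theorem sep_zero {j : ℕ} (hj : 1 ≤ j) : ∃ m ∈ SS α β, H.σ m = 0 ∧ H.ρ j m ≠ 0 := by
  refine ⟨th α β (s + 1) - th α β s - 1,
    sub_mem (sub_mem (th_mem hs.add_one_ne) (th_mem hs.ne_zero)) (one_mem _), ?_, ?_⟩
  · rw [map_sub, map_sub, map_one, sigma_th H _ hs.add_one_ne, sigma_th H s hs.ne_zero]
    ring
  · rw [map_sub, map_sub, map_one, rho_th H j _ hs.add_one_ne, rho_th H j s hs.ne_zero]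
    intro h
    have hX : s ^ (2 ^ j - 1) ≠ 0 := pow_ne_zero _ hs.ne_zero
    have hY : (s + 1) ^ (2 ^ j - 1) ≠ 0 := pow_ne_zero _ hs.add_one_ne
    have e1 := pow_q s j
    have e2 := pow_q (s + 1) j
    rw [add_one_pow] at e2
    set X := s ^ (2 ^ j - 1)
    set Y := (s + 1) ^ (2 ^ j - 1)
    have h1 : X - Y - X * Y = 0 := by
      have h2 : Y⁻¹ - X⁻¹ - 1 = 0 := h
      field_simp at h2
      linear_combination h2
    have h2 := two_eq (K := K)
    have h3 : s ^ 2 ^ j * (s ^ 2 ^ j) = s := by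
      have h4 : (s * (s + 1)) * (X - Y - X * Y) = 0 := by rw [h1, mul_zero]
      have h5 : (s ^ 2 ^ j) * (s + 1) - (s ^ 2 ^ j + 1) * s -
          (s ^ 2 ^ j) * (s ^ 2 ^ j + 1) = 0 := by
        rw [e2, e1]
        linear_combination h4
      linear_combination -h5 - s * h2
    have h6 : s ^ (2 ^ j + 2 ^ j) = s := by rw [pow_add, h3]
    have h7 : (1 : ℕ) < 2 ^ j := Nat.one_lt_two_pow (by omega)
    exact hs.pow_ne (a := 1) (b := 2 ^ j + 2 ^ j) (by omega) (by rw [pow_one, h6])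

theorem sep_pos {j j' : ℕ} (hj : 1 ≤ j) (hj' : 1 ≤ j') (hne : j ≠ j') :
    ∃ m ∈ SS α β, H.ρ j' m = 0 ∧ H.ρ j m ≠ 0 := by
  obtain ⟨y, hy, hyx⟩ := surj H hs (i := j' + 1) (by omega) s
  have hyx' : H.ρ j' y = s := hyx
  have hX : ∀ (l : ℕ) (x : K), x ≠ 0 → x ^ (2 ^ l - 1) ≠ 0 := fun l x hx => pow_ne_zero _ hx
  by_cases h1 : H.ρ j (y ^ (2 ^ j' - 1) * th α β s - 1) = 0
  · by_cases h2 : H.ρ j ((y + 1) ^ (2 ^ j' - 1) * th α β (s + 1) - 1) = 0
    · exfalso
      rw [map_sub, map_one, map_mul, map_pow, rho_th H j s hs.ne_zero, sub_eq_zero,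
        mul_inv_eq_one₀ (hX _ _ hs.ne_zero)] at h1
      rw [map_sub, map_one, map_mul, map_pow, rho_th H j _ hs.add_one_ne, sub_eq_zero,
        mul_inv_eq_one₀ (hX _ _ hs.add_one_ne), map_add, map_one] at h2
      set g := H.ρ j y
      have e1 := pow_q s j
      have e2 := pow_q (s + 1) j
      have e3 := pow_q g j'
      have e4 := pow_q (g + 1) j'
      rw [add_one_pow] at e2 e4
      rw [h1] at e3
      rw [h2] at e4
      rw [e3] at e4
      have two := two_eq (K := K)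
      have h3 : g * (s + s ^ 2 ^ j) = s * (s + s ^ 2 ^ j) := by
        have h4 : s * (s + 1) * (s ^ (2 ^ j - 1) * g + 1) =
            s * (s + 1) * ((s + 1) ^ (2 ^ j - 1) * (g + 1)) := by rw [e4]
        have h5 : s * (s + 1) * ((s + 1) ^ (2 ^ j - 1) * (g + 1)) =
            (s ^ 2 ^ j + 1) * s * (g + 1) := by rw [e2]; ring
        have h6 : s * (s + 1) * (s ^ (2 ^ j - 1) * g + 1) =
            s ^ 2 ^ j * (s + 1) * g + s * (s + 1) := by rw [e1]; ring
        rw [h5, h6] at h4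
        linear_combination h4 + (g * s - s ^ 2) * two
      have h5 : s + s ^ 2 ^ j ≠ 0 := by
        intro h
        have h7 : (1 : ℕ) < 2 ^ j := Nat.one_lt_two_pow (by omega)
        exact hs.pow_ne h7 (by rw [pow_one]; exact eq_of_add_K h)
      have h6 : g = s := mul_right_cancel₀ h5 h3
      rw [h6] at h1
      have h7 : (2 : ℕ) ^ j ≠ 2 ^ j' := fun h => hne (Nat.pow_right_injective (le_refl 2) h)
      have p1 : 0 < 2 ^ j := by positivity
      have p2 : 0 < 2 ^ j' := by positivity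
      rcases lt_or_gt_of_ne h7 with h8 | h8
      · exact hs.pow_ne (a := 2 ^ j - 1) (b := 2 ^ j' - 1) (by omega) h1.symm
      · exact hs.pow_ne (a := 2 ^ j' - 1) (b := 2 ^ j - 1) (by omega) h1
    · refine ⟨_, sub_mem (mul_mem (pow_mem (add_mem hy (one_mem _)) _) (th_mem hs.add_one_ne))
        (one_mem _), ?_, h2⟩
      rw [map_sub, map_one, map_mul, map_pow, rho_th H j' _ hs.add_one_ne, map_add, map_one,
        hyx', mul_inv_cancel₀ (hX _ _ hs.add_one_ne), sub_self]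
  · refine ⟨_, sub_mem (mul_mem (pow_mem hy _) (th_mem hs.ne_zero)) (one_mem _), ?_, h1⟩
    rw [map_sub, map_one, map_mul, map_pow, rho_th H j' s hs.ne_zero, hyx',
      mul_inv_cancel₀ (hX _ _ hs.ne_zero), sub_self]

theorem sep {i i' : ℕ} (hi : i ≠ 1) (hne : i ≠ i') :
    ∃ m ∈ SS α β, tau H i' m = 0 ∧ tau H i m ≠ 0 := by
  rcases i' with _ | _ | j'
  · rcases i with _ | j
    · exact absurd rfl hne
    · exact sep_zero H hs (by omega)
  · exact sep_one H hs hi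
  · rcases i with _ | j
    · obtain ⟨m, hm, h1, h2⟩ := sep_zero H hs (j := j' + 1) (by omega)
      obtain ⟨m', hm', h3⟩ := surj H hs (i := j' + 2) (by omega) (H.ρ (j' + 1) m)⁻¹
      have h3' : H.ρ (j' + 1) m' = (H.ρ (j' + 1) m)⁻¹ := h3
      refine ⟨1 - m * m', sub_mem (one_mem _) (mul_mem hm hm'), ?_, ?_⟩
      · change H.ρ (j' + 1) (1 - m * m') = 0
        rw [map_sub, map_one, map_mul, h3', mul_inv_cancel₀ h2, sub_self]
      · change H.σ (1 - m * m') ≠ 0
        rw [map_sub, map_one, map_mul, h1, zero_mul, sub_zero]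
        exact one_ne_zero
    · exact sep_pos H hs (by omega) (by omega) (by omega)

theorem exists_e {i i' : ℕ} (hi : i ≠ 1) (hne : i ≠ i') :
    ∃ e ∈ SS α β, (∃ w, e = dl α β s i' * w) ∧ ∃ w, 1 - e = dl α β s i * w := by
  obtain ⟨m, hm, h1, h2⟩ := sep H hs hi hne
  obtain ⟨m', hm', h3⟩ := surj H hs hi (tau H i m)⁻¹
  set x := m * m' with hx
  have hx1 : tau H i' x = 0 := by rw [hx, map_mul, h1, zero_mul]
  have hx2 : tau H i (1 - x) = 0 := by
    rw [map_sub, map_one, hx, map_mul, h3, mul_inv_cancel₀ h2, sub_self]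
  have hxm : x ∈ SS α β := mul_mem hm hm'
  obtain ⟨w1, hw1⟩ := tau_ker H i' hx1 hx1
  obtain ⟨w2, hw2⟩ := tau_ker H i hx2 hx2
  refine ⟨x * x * (x + (1 - x) + (1 - x) + (1 - x)), mul_mem (mul_mem hxm hxm)
    (add_mem (add_mem (add_mem hxm (sub_mem (one_mem _) hxm)) (sub_mem (one_mem _) hxm))
      (sub_mem (one_mem _) hxm)), ⟨w1 * (x + (1 - x) + (1 - x) + (1 - x)), ?_⟩,
    w2 * (x + x + x + (1 - x)), ?_⟩
  · rw [hw1, mul_assoc]
  · linear_combination (x + x + x + (1 - x)) * hw2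

theorem exists_e_prod {i : ℕ} (hi : i ≠ 1) (J : Finset ℕ) (hJ : i ∉ J) :
    ∃ e ∈ SS α β, (∃ w, e = (∏ l ∈ J, dl α β s l) * w) ∧ ∃ w, 1 - e = dl α β s i * w := by
  induction J using Finset.induction_on with
  | empty => exact ⟨1, one_mem _, ⟨1, by simp⟩, 0, by simp⟩
  | insert k J hk ih =>
    obtain ⟨e, he, ⟨w, hw⟩, w', hw'⟩ := ih fun h => hJ (mem_insert_of_mem h)
    obtain ⟨f, hf, ⟨v, hv⟩, v', hv'⟩ := exists_e H hs hi (i' := k) fun h => hJ (by
      rw [h]; exact mem_insert_self _ _)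
    refine ⟨f * e, mul_mem hf he, ⟨v * w, ?_⟩, w' + v' * e, ?_⟩
    · rw [prod_insert hk, hv, hw]; ring
    · have : 1 - f * e = (1 - e) + (1 - f) * e := by ring
      rw [this, hw', hv']; ring

/-- **The Chinese remainder argument.** -/
theorem crt {N : AddSubgroup R} (hN : ∀ v : K, v ≠ 0 → th α β v ∈ N) (n : ℕ)
    (hF : ∀ r, (∏ i ∈ range n, dl α β s i) * r ∈ N) (r : R) : dl α β s 1 * r ∈ N := by
  have hS : ∀ x ∈ SS α β, x ∈ N := fun x hx => SS_le hN hx
  set J := (range n).erase 1 with hJd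
  have hmem : ∀ i ∈ J, i ≠ 1 := fun i hi => ne_of_mem_erase hi
  -- one factor
  have h1 : ∀ i ∈ J, ∃ e ∈ SS α β, (∀ r, e * r ∈ N) ∧ ∃ w, 1 - e = dl α β s i * w := by
    intro i hi
    obtain ⟨e, he, ⟨w, hw⟩, w', hw'⟩ := exists_e_prod H hs (hmem i hi) ((range n).erase i)
      (notMem_erase _ _)
    refine ⟨e, he, fun r => ?_, w', hw'⟩
    obtain ⟨y, hy, z, hz⟩ := surj_dl H hs (hmem i hi) r
    have e1 : e * r = e * y + (∏ l ∈ range n, dl α β s l) * (w * z) := by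
      have h2 : r = y + dl α β s i * z := by rw [← hz]; ring
      rw [← mul_prod_erase (range n) _ (mem_of_mem_erase hi)]
      nth_rewrite 1 [h2]
      rw [mul_add]
      congr 1
      rw [hw]; ring
    rw [e1]
    exact add_mem (hS _ (mul_mem he hy)) (hF _)
  -- all factors
  have h2 : ∀ J' : Finset ℕ, J' ⊆ J → ∃ e : R, (∀ r, (1 - e) * r ∈ N) ∧
      ∃ w, e = (∏ i ∈ J', dl α β s i) * w := by
    intro J'
    induction J' using Finset.induction_on with
    | empty =>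
      intro _
      exact ⟨1, fun r => by rw [sub_self, zero_mul]; exact zero_mem _, 1, by simp⟩
    | insert k J' hk ih =>
      intro hsub
      obtain ⟨e, he, w, hw⟩ := ih fun x hx => hsub (mem_insert_of_mem hx)
      obtain ⟨f, -, hf, w', hw'⟩ := h1 k (hsub (mem_insert_self _ _))
      refine ⟨e * (1 - f), fun r => ?_, w * w', ?_⟩
      · have : (1 - e * (1 - f)) * r = (1 - e) * r + f * (e * r) := by ring
        rw [this]
        exact add_mem (he r) (hf _)
      · rw [prod_insert hk, hw, hw']; ring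
  obtain ⟨e, he, w, hw⟩ := h2 J (Subset.refl _)
  have h3 : dl α β s 1 * r = e * dl α β s 1 * r + (1 - e) * (dl α β s 1 * r) := by ring
  rw [h3]
  refine add_mem ?_ (he _)
  by_cases hn : 1 ∈ range n
  · have h4 : e * dl α β s 1 * r = (∏ i ∈ range n, dl α β s i) * (w * r) := by
      rw [← mul_prod_erase (range n) _ hn, hw]; ring
    rw [h4]
    exact hF _
  · have h4 : e * dl α β s 1 * r = (∏ i ∈ range n, dl α β s i) * (w * dl α β s 1 * r) := by
      rw [hw, hJd, erase_eq_of_notMem hn]; ring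
    rw [h4]
    exact hF _

end abs

end Pool.Agent.HuaBd45
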