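import Mathlib

/-!
# The last step of the theorem on bounded degree in characteristic 2: no part of degree 2
-/

set_option autoImplicit false

namespace Pool.Agent.HuaBd45

section

variable {K B : Type*} [Field K] [CharP K 2] [AddCommGroup B]

/-- additive maps on a field which vanish on `s * (D v / v)` for all squares `s` vanish -/
theorem span_dlog (D : K → K) (hDadd : ∀ a b, D (a + b) = D a + D b) {t : K} (hDt : D t = 1)
    (hD1 : D 1 = 0) (ht : t ≠ 0) (ht1 : t + 1 ≠ 0) (hK : ∀ z : K, ∃ a b, z = a * a + b * b * t)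
    (m : K →+ B) (h : ∀ s v : K, v ≠ 0 → m (s * s * (D v / v)) = 0) (z : K) : m z = 0 := by
  have h2 : (2 : K) = 0 := CharTwo.two_eq_zero
  have h1 : ∀ b : K, m (b * b * t) = 0 := by
    intro b
    have := h (b * t) t ht
    rw [hDt] at this
    have e : b * t * (b * t) * (1 / t) = b * b * t := by
      field_simp
    rwa [e] at this
  have h3 : ∀ b : K, m (b * b) = 0 := by
    intro b
    have := h (b * (t + 1)) (t + 1) ht1
    rw [hDadd, hDt, hD1, add_zero] at this
    have e : b * (t + 1) * (b * (t + 1)) * (1 / (t + 1)) = b * b * t + b * b := by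
      field_simp
    rw [e, map_add, h1, zero_add] at this
    exact this
  obtain ⟨a, b, rfl⟩ := hK z
  rw [map_add, h3, h1, add_zero]

/-- There is no symmetric part of degree two. -/
theorem step3 (D : K → K) (hDadd : ∀ a b, D (a + b) = D a + D b)
    (hDmul : ∀ a b, D (a * b) = a * D b + D a * b) {t : K} (hDt : D t = 1)
    (ht : t ≠ 0) (ht1 : t + 1 ≠ 0) (hK : ∀ z : K, ∃ a b, z = a * a + b * b * t)
    (lam mu : K → K →+ B) (hlam : ∀ k, lam k 1 = 0)
    (hmu : ∀ k v, v ≠ 0 → mu k (D v / v) = 0)
    (hsym : ∀ k x c, lam k (c * x) + mu k (D c * x) = lam x (c * k) + mu x (D c * k)) :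
    ∀ k z, lam k z = 0 ∧ mu k z = 0 := by
  have h2 : (2 : K) = 0 := CharTwo.two_eq_zero
  have hD1 : D 1 = 0 := by
    have h := hDmul 1 1
    rw [mul_one, one_mul, mul_one] at h
    have h' : D 1 + 0 = D 1 + D 1 := by rw [add_zero]; exact h
    exact (add_left_cancel h').symm
  have hDsq : ∀ a, D (a * a) = 0 := by
    intro a
    rw [hDmul]
    have e : a * D a + D a * a = 2 * (a * D a) := by ring
    rw [e, h2, zero_mul]
  have hD0 : D 0 = 0 := by
    have h := hDadd 0 0
    rw [add_zero] at h
    have h' : D 0 + 0 = D 0 + D 0 := by rw [add_zero]; exact h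
    exact (add_left_cancel h').symm
  have hDs : ∀ z, ∃ a, D z = a * a := by
    intro z
    obtain ⟨a, b, rfl⟩ := hK z
    refine ⟨b, ?_⟩
    rw [hDadd, hDsq, hDmul, hDsq, hDt, zero_add, mul_one, zero_mul, add_zero]
  -- c = 1
  have e1 : ∀ k x, lam k x = lam x k := by
    intro k x
    have h := hsym k x 1
    rw [hD1, zero_mul, zero_mul, map_zero, map_zero, add_zero, add_zero, one_mul, one_mul] at h
    exact h
  have e2 : ∀ z, lam 1 z = 0 := by
    intro z
    rw [e1]
    exact hlam z
  -- x = 1
  have e3 : ∀ k c, lam k c = mu 1 (D c * k) - mu k (D c) := by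
    intro k c
    have h := hsym k 1 c
    rw [mul_one, mul_one, e2, zero_add] at h
    rw [← h]
    abel
  -- the equation for mu
  have e4 : ∀ k x c, mu 1 (c * D x * k) - mu k (c * D x) = mu 1 (c * D k * x) - mu x (c * D k) := by
    intro k x c
    have h := hsym k x c
    rw [e3, e3, hDmul, hDmul, add_mul, add_mul, map_add, map_add, map_add, map_add] at h
    have r1 : D c * x * k = D c * k * x := by ring
    rw [r1] at h
    have h' : mu 1 (c * D x * k) - mu k (c * D x) + mu 1 (D c * k * x) =
        mu 1 (c * D k * x) - mu x (c * D k) + mu 1 (D c * k * x) := by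
      calc _ = mu 1 (c * D x * k) + mu 1 (D c * k * x) -
            (mu k (c * D x) + mu k (D c * x)) + mu k (D c * x) := by abel
        _ = _ := by rw [h]; abel
    exact add_right_cancel h'
  have e5 : ∀ k c, mu k c = mu 1 (k * c) + (mu t (D k * c) - mu 1 (D k * c * t)) := by
    intro k c
    have h := e4 k t c
    rw [hDt, mul_one] at h
    have r1 : c * D k * t = D k * c * t := by ring
    have r2 : c * D k = D k * c := by ring
    have r3 : c * k = k * c := by ring
    rw [r1, r2, r3] at h
    have h' : mu k c = mu 1 (k * c) - (mu 1 (k * c) - mu k c) := by abel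
    rw [h', h]
    abel
  -- mu 1 = 0
  have m1 : ∀ z, mu 1 z = 0 := by
    apply span_dlog D hDadd hDt hD1 ht ht1 hK
    intro s v hv
    have h := hmu (s * s) v hv
    rw [e5, hDsq, zero_mul, zero_mul, map_zero, map_zero, sub_zero, add_zero] at h
    exact h
  have e6 : ∀ k c, mu k c = mu t (D k * c) := by
    intro k c
    have h := e5 k c
    rw [m1, m1, zero_add, sub_zero] at h
    exact h
  have m2 : ∀ z, mu t z = 0 := by
    apply span_dlog D hDadd hDt hD1 ht ht1 hK
    intro s v hv
    have h := hmu (s * s * t) v hv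
    rw [e6, hDmul, hDsq, hDt, mul_one, zero_mul, add_zero] at h
    exact h
  have m3 : ∀ k z, mu k z = 0 := by
    intro k z
    rw [e6, m2]
  intro k z
  refine ⟨?_, m3 k z⟩
  rw [e3, m3, m3, sub_zero]

end

end Pool.Agent.HuaBd45
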