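import Mathlib

/-!
# Characteristic two: the element Theta

For `y_S = s ^ n + ∑ i ∈ S, s ^ i`, `S ⊆ {0, …, n - 1}`, and two ring homomorphisms `a, b` of a
field of characteristic two, `∑ a (y_S) ^ 2 * b (y_S)⁻¹` is a unit times the product of the
elements `a (s) ^ 2 - b (s) ^ (2 ^ i)`, `i < n`.
-/

namespace Pool.Agent.HuaBd45

open Finset Polynomial

section sums

variable {K R : Type*} [AddCommMonoid K] [CommRing R]

/-- the sum over all subsets of `{0, …, n - 1}` splits -/
theorem sum_powerset_succ {M : Type*} [AddCommMonoid M] (n : ℕ) (w : ℕ → K) (f : K → M) (x : K) :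
    ∑ S ∈ (range (n + 1)).powerset, f (x + ∑ i ∈ S, w i) =
      ∑ S ∈ (range n).powerset, (f (x + ∑ i ∈ S, w i) + f (x + w n + ∑ i ∈ S, w i)) := by
  rw [range_add_one, sum_powerset_insert notMem_range_self, ← sum_add_distrib]
  refine sum_congr rfl fun S hS => ?_
  have hn : n ∉ S := fun h => absurd (mem_powerset.1 hS h) notMem_range_self
  rw [sum_insert hn, add_assoc]

theorem prod_powerset_succ {M : Type*} [CommMonoid M] (n : ℕ) (w : ℕ → K) (f : K → M) (x : K) :
    ∏ S ∈ (range (n + 1)).powerset, f (x + ∑ i ∈ S, w i) =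
      ∏ S ∈ (range n).powerset, (f (x + ∑ i ∈ S, w i) * f (x + w n + ∑ i ∈ S, w i)) := by
  rw [range_add_one, prod_powerset_insert notMem_range_self, ← prod_mul_distrib]
  refine prod_congr rfl fun S hS => ?_
  have hn : n ∉ S := fun h => absurd (mem_powerset.1 hS h) notMem_range_self
  rw [sum_insert hn, add_assoc]

/-- A product of fewer than `n` additive functions has sum zero over every translate of a space
spanned by `n` elements. -/
theorem sum_prod_additive (h2 : (2 : R) = 0) (w : ℕ → K) (n : ℕ) :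
    ∀ (J : Finset ℕ) (g : ℕ → K →+ R) (x : K), J.card < n →
      ∑ S ∈ (range n).powerset, ∏ j ∈ J, g j (x + ∑ i ∈ S, w i) = 0 := by
  induction n with
  | zero => intro J g x h; exact absurd h (Nat.not_lt_zero _)
  | succ n ih =>
    intro J g x hJ
    rw [sum_powerset_succ n w (fun z => ∏ j ∈ J, g j z) x]
    have key : ∀ z : K, (∏ j ∈ J, g j z) + ∏ j ∈ J, g j (w n + z) =
        ∑ T ∈ J.powerset.erase J, (∏ j ∈ J \ T, g j (w n)) * ∏ j ∈ T, g j z := by
      intro z
      have h1 : ∏ j ∈ J, g j (w n + z) =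
          ∑ T ∈ J.powerset, (∏ j ∈ J \ T, g j (w n)) * ∏ j ∈ T, g j z := by
        have h3 : ∀ j, g j (w n + z) = g j z + g j (w n) := fun j => by
          rw [map_add, add_comm]
        rw [prod_congr rfl fun j _ => h3 j, prod_add]
        exact sum_congr rfl fun T _ => mul_comm _ _
      rw [h1, ← add_sum_erase _ _ (mem_powerset_self J), sdiff_self, bot_eq_empty, prod_empty, one_mul,
        ← add_assoc, ← two_mul, h2, zero_mul, zero_add]
    have h4 : ∀ S : Finset ℕ, x + w n + ∑ i ∈ S, w i = w n + (x + ∑ i ∈ S, w i) := fun S => by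
      rw [add_comm x (w n), add_assoc]
    rw [sum_congr rfl fun S _ => by rw [h4 S, key], sum_comm]
    refine sum_eq_zero fun T hT => ?_
    rw [← mul_sum]
    have h5 : T ⊂ J := by
      rw [mem_erase, mem_powerset] at hT
      exact ssubset_of_subset_of_ne hT.2 hT.1
    rw [ih T g x (by have := card_lt_card h5; omega), mul_zero]

end sums

section field

variable {K : Type*} [Field K] [CharP K 2]

/-- the elements `y_S` -/
def yS (s : K) (n : ℕ) (S : Finset ℕ) : K := s ^ n + ∑ i ∈ S, s ^ i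

theorem two_eq : (2 : K) = 0 := by
  have := CharP.cast_eq_zero K 2
  simpa using this

/-- the product of the elements of a translate -/
def LL (w : ℕ → K) (n : ℕ) (x : K) : K := ∏ S ∈ (range n).powerset, (x + ∑ i ∈ S, w i)

omit [CharP K 2] in
theorem LL_zero (w : ℕ → K) (x : K) : LL w 0 x = x := by
  simp [LL]

omit [CharP K 2] in
theorem LL_succ' (w : ℕ → K) (n : ℕ) (x : K) : LL w (n + 1) x = LL w n x * LL w n (x + w n) := by
  rw [LL, prod_powerset_succ n w (fun z => z) x, prod_mul_distrib]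
  rfl

theorem LL_add (w : ℕ → K) (n : ℕ) : ∀ x y, LL w n (x + y) = LL w n x + LL w n y := by
  induction n with
  | zero => intro x y; rw [LL_zero, LL_zero, LL_zero]
  | succ n ih =>
    intro x y
    rw [LL_succ', LL_succ', LL_succ', ih (x + y), ih x y, ih x (w n), ih y (w n)]
    have h := two_eq (K := K)
    linear_combination (LL w n x * LL w n y) * h

theorem LL_succ (w : ℕ → K) (n : ℕ) (x : K) :
    LL w (n + 1) x = LL w n x * (LL w n x + LL w n (w n)) := by
  rw [LL_succ', LL_add]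

/-- the sum of the inverses of the elements of a translate -/
theorem sum_inv (w : ℕ → K) (n : ℕ) :
    ∀ x, LL w n x ≠ 0 → ∑ S ∈ (range n).powerset, (x + ∑ i ∈ S, w i)⁻¹ =
      (∏ m ∈ range n, LL w m (w m)) / LL w n x := by
  induction n with
  | zero => intro x _; simp [LL_zero]
  | succ n ih =>
    intro x hx
    rw [LL_succ] at hx
    have h1 : LL w n x ≠ 0 := left_ne_zero_of_mul hx
    have h2 : LL w n x + LL w n (w n) ≠ 0 := right_ne_zero_of_mul hx
    rw [sum_powerset_succ n w (fun z => z⁻¹) x, sum_add_distrib, ih x h1,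
      ih (x + w n) (by rw [LL_add]; exact h2), LL_add, prod_range_succ, LL_succ]
    have h := two_eq (K := K)
    field_simp
    linear_combination ((∏ m ∈ range n, LL w m (w m)) * LL w n x) * h

variable {s : K} (hs : ∀ (m : ℕ) (S : Finset ℕ), S ⊆ range m → s ^ m + ∑ i ∈ S, s ^ i ≠ 0)
include hs

omit [CharP K 2] in
theorem LL_ne (m : ℕ) : LL (fun i => s ^ i) m (s ^ m) ≠ 0 := by
  rw [LL, prod_ne_zero_iff]
  intro S hS
  exact hs m S (mem_powerset.1 hS)

theorem sum_inv_ne (n : ℕ) : ∑ S ∈ (range n).powerset, (yS s n S)⁻¹ ≠ 0 := by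
  have h := sum_inv (fun i => s ^ i) n (s ^ n) (LL_ne hs n)
  have h2 : ∑ S ∈ (range n).powerset, (yS s n S)⁻¹ =
      (∏ m ∈ range n, LL (fun i => s ^ i) m (s ^ m)) / LL (fun i => s ^ i) n (s ^ n) := h
  rw [h2]
  exact div_ne_zero (prod_ne_zero_iff.2 fun m _ => LL_ne hs m) (LL_ne hs n)

omit hs in
theorem yS_pow (n i : ℕ) (S : Finset ℕ) :
    yS s n S ^ 2 ^ i = (s ^ 2 ^ i) ^ n + ∑ j ∈ S, (s ^ 2 ^ i) ^ j := by
  rw [yS, ← iterateFrobenius_def, map_add, map_sum]
  simp only [iterateFrobenius_def, ← pow_mul, mul_comm]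

theorem sum_pow_zero (n i : ℕ) (hi : i < n) :
    ∑ S ∈ (range n).powerset, (yS s n S)⁻¹ * yS s n S ^ 2 ^ i = 0 := by
  have h1 : ∀ S ∈ (range n).powerset, (yS s n S)⁻¹ * yS s n S ^ 2 ^ i =
      ∏ j ∈ range i, ((iterateFrobenius K 2 j : K →+* K) : K →+ K) (s ^ n + ∑ l ∈ S, s ^ l) := by
    intro S hS
    have hne : yS s n S ≠ 0 := hs n S (mem_powerset.1 hS)
    have h2 : ∏ j ∈ range i, ((iterateFrobenius K 2 j : K →+* K) : K →+ K)
        (s ^ n + ∑ l ∈ S, s ^ l) = yS s n S ^ ∑ j ∈ range i, 2 ^ j := by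
      rw [← prod_pow_eq_pow_sum]
      refine prod_congr rfl fun j _ => ?_
      change iterateFrobenius K 2 j (yS s n S) = _
      rw [iterateFrobenius_def]
    have h3 : 2 ^ i = (∑ j ∈ range i, 2 ^ j) + 1 := by
      have := Nat.geomSum_eq (le_refl 2) i
      have h4 : 0 < 2 ^ i := by positivity
      rw [this]
      simp
      omega
    rw [h2, h3, pow_succ, mul_comm, mul_assoc, mul_inv_cancel₀ hne, mul_one]
  rw [sum_congr rfl h1]
  exact sum_prod_additive two_eq (fun l => s ^ l) n (range i) _ (s ^ n) (by rwa [card_range])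

/-- the polynomial `G` -/
noncomputable def GG (s : K) (n : ℕ) : K[X] :=
  ∑ S ∈ (range n).powerset, C (yS s n S)⁻¹ * (X ^ n + ∑ i ∈ S, X ^ i)

theorem GG_eq (n : ℕ) :
    GG s n = C (∑ S ∈ (range n).powerset, (yS s n S)⁻¹) * ∏ i ∈ range n, (X - C (s ^ 2 ^ i)) := by
  rw [← sub_eq_zero]
  refine Polynomial.eq_zero_of_degree_lt_of_eval_index_eq_zero (s := range n)
    (v := fun i : ℕ => s ^ 2 ^ i) ?_ ?_ ?_
  · -- injectivity
    have key : ∀ i j : ℕ, i < j → s ^ 2 ^ i ≠ s ^ 2 ^ j := by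
      intro i j hij h
      have h1 := hs (2 ^ j) {2 ^ i} (by
        rw [singleton_subset_iff, mem_range]
        exact Nat.pow_lt_pow_right (by norm_num) hij)
      rw [sum_singleton, h] at h1
      exact h1 (by rw [← two_mul, two_eq, zero_mul])
    intro i _ j _ hij
    rcases lt_trichotomy i j with h | h | h
    · exact absurd hij (key i j h)
    · exact h
    · exact absurd hij.symm (key j i h)
  · -- degree
    have h1 : GG s n = C (∑ S ∈ (range n).powerset, (yS s n S)⁻¹) * X ^ n +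
        ∑ S ∈ (range n).powerset, C (yS s n S)⁻¹ * ∑ i ∈ S, X ^ i := by
      rw [GG, map_sum, sum_mul, ← sum_add_distrib]
      exact sum_congr rfl fun S _ => by rw [mul_add]
    have h2 : (∑ S ∈ (range n).powerset, C (yS s n S)⁻¹ * ∑ i ∈ S, (X : K[X]) ^ i) ∈
        degreeLT K n := by
      refine Submodule.sum_mem _ fun S hS => ?_
      rw [← smul_eq_C_mul]
      refine Submodule.smul_mem _ _ (Submodule.sum_mem _ fun i hi => ?_)
      rw [mem_degreeLT, degree_X_pow]
      exact_mod_cast mem_range.1 (mem_powerset.1 hS hi)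
    have h3 : ((X : K[X]) ^ n - ∏ i ∈ range n, ((X : K[X]) - C (s ^ 2 ^ i))) ∈ degreeLT K n := by
      rw [mem_degreeLT]
      rcases Nat.eq_zero_or_pos n with rfl | hn
      · rw [pow_zero, range_zero, prod_empty, sub_self, degree_zero]
        exact WithBot.bot_lt_coe 0
      · have hm : (∏ i ∈ range n, ((X : K[X]) - C (s ^ 2 ^ i))).Monic :=
          monic_prod_of_monic _ _ fun i _ => monic_X_sub_C _
        have hd : (∏ i ∈ range n, ((X : K[X]) - C (s ^ 2 ^ i))).degree = (n : WithBot ℕ) := by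
          rw [degree_prod, sum_congr rfl fun i _ => degree_X_sub_C (s ^ 2 ^ i)]
          simp
        have hd2 : ((X : K[X]) ^ n).degree = (n : WithBot ℕ) := degree_X_pow n
        have h5 := degree_sub_lt_left (p := (X : K[X]) ^ n) (q := ∏ i ∈ range n, (X - C (s ^ 2 ^ i)))
          (by rw [hd, hd2]) (pow_ne_zero _ X_ne_zero)
          (by rw [hm.leadingCoeff, (monic_X_pow n).leadingCoeff])
        rwa [hd2] at h5
    have h4 : GG s n - C (∑ S ∈ (range n).powerset, (yS s n S)⁻¹) *
        ∏ i ∈ range n, (X - C (s ^ 2 ^ i)) =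
        C (∑ S ∈ (range n).powerset, (yS s n S)⁻¹) *
          (X ^ n - ∏ i ∈ range n, (X - C (s ^ 2 ^ i))) +
        ∑ S ∈ (range n).powerset, C (yS s n S)⁻¹ * ∑ i ∈ S, X ^ i := by
      rw [h1]; ring
    rw [h4, card_range, ← mem_degreeLT, ← smul_eq_C_mul]
    exact Submodule.add_mem _ (Submodule.smul_mem _ _ h3) h2
  · intro i hi
    have h1 : eval (s ^ 2 ^ i) (GG s n) = 0 := by
      rw [GG, eval_finsetSum, ← sum_pow_zero hs n i (mem_range.1 hi)]
      refine sum_congr rfl fun S _ => ?_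
      rw [eval_mul, eval_C, eval_add, eval_finsetSum, eval_pow, eval_X, yS_pow]
      congr 2
      exact sum_congr rfl fun j _ => by rw [eval_pow, eval_X]
    rw [eval_sub, h1, eval_mul, eval_prod, prod_eq_zero hi, mul_zero, sub_zero]
    rw [eval_sub, eval_X, eval_C, sub_self]

/-- **The element Theta.** -/
theorem theta_eq {R : Type*} [CommRing R] (a b : K →+* R) (n : ℕ) :
    ∑ S ∈ (range n).powerset, a (yS s n S) ^ 2 * b (yS s n S)⁻¹ =
      b (∑ S ∈ (range n).powerset, (yS s n S)⁻¹) *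
        ∏ i ∈ range n, (a s ^ 2 - b s ^ 2 ^ i) := by
  have h2 : (2 : R) = 0 := by
    have := congrArg b (two_eq (K := K))
    rwa [map_ofNat, map_zero] at this
  have hsq : ∀ x y : R, (x + y) ^ 2 = x ^ 2 + y ^ 2 := fun x y => by
    linear_combination (x * y) * h2
  have hsum : ∀ (S : Finset ℕ) (f : ℕ → R), (∑ i ∈ S, f i) ^ 2 = ∑ i ∈ S, f i ^ 2 := by
    intro S f
    induction S using Finset.induction_on with
    | empty => simp
    | insert i S hi ih => rw [sum_insert hi, sum_insert hi, hsq, ih]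
  have h := congrArg (eval₂ b (a s ^ 2)) (GG_eq hs n)
  rw [GG, eval₂_finsetSum, eval₂_mul, eval₂_C, eval₂_finsetProd] at h
  have e1 : ∀ S ∈ (range n).powerset, a (yS s n S) ^ 2 * b (yS s n S)⁻¹ =
      eval₂ b (a s ^ 2) (C (yS s n S)⁻¹ * (X ^ n + ∑ i ∈ S, X ^ i)) := by
    intro S _
    rw [eval₂_mul, eval₂_C, eval₂_add, eval₂_finsetSum, eval₂_pow, eval₂_X, mul_comm]
    congr 1
    rw [yS, map_add, map_pow, map_sum, hsq, hsum, ← pow_mul, ← pow_mul, mul_comm n 2]
    congr 1
    refine sum_congr rfl fun j _ => ?_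
    rw [eval₂_pow, eval₂_X, map_pow, ← pow_mul, ← pow_mul, mul_comm j 2]
  rw [sum_congr rfl e1, h]
  congr 1
  refine prod_congr rfl fun i _ => ?_
  rw [eval₂_sub, eval₂_X, eval₂_C, map_pow]

end field

end Pool.Agent.HuaBd45
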